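import Pool.Agent.W8.ST.Defs

/-!
Project ST: statements of the subtasks, and the final statement from them.
-/

open scoped ContDiff
open MeasureTheory intervalIntegral

namespace Pool.Agent.W8.ST

noncomputable section

/-! ### geometry -/

/-- ST-RMet -/
def RMet : Prop :=
  (∀ i j, ContDiff ℝ ∞ (fun x => gex x i j)) ∧ ∀ x, (gex x).PosDef

/-- ST-Deck: the elements of the groups -/
def Deck : Prop :=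
  (∀ γ ∈ M1.Γ, ∃ m n k : ℤ, ∀ x, γ x = gam1 m n k x) ∧
  (∀ m n k : ℤ, ∃ γ ∈ M1.Γ, ∀ x, γ x = gam1 m n k x) ∧
  (∀ γ ∈ M2.Γ, ∃ m n k : ℤ, ∀ x, γ x = gam2 m n k x) ∧
  (∀ m n k : ℤ, ∃ γ ∈ M2.Γ, ∀ x, γ x = gam2 m n k x)

/-- ST-Iso1 -/
def Iso1 : Prop :=
  Deck → ∀ γ ∈ M1.Γ, ContDiff ℝ ∞ γ ∧ (∀ x ∈ strip 3, γ x ∈ strip 3) ∧
    ∀ x i j, gex x i j = ∑ k, ∑ l, pd i (fun y => γ y k) x * gex (γ x) k l * pd j (fun y => γ y l) x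

/-- ST-Iso2 -/
def Iso2 : Prop :=
  Deck → ∀ γ ∈ M2.Γ, ContDiff ℝ ∞ γ ∧ (∀ x ∈ strip 3, γ x ∈ strip 3) ∧
    ∀ x i j, gex x i j = ∑ k, ∑ l, pd i (fun y => γ y k) x * gex (γ x) k l * pd j (fun y => γ y l) x

/-- ST-Pro1 -/
def Pro1 : Prop :=
  Deck → (∀ γ ∈ M1.Γ, ∀ x ∈ strip 3, γ x = x → γ = 1) ∧
    (∀ x ∈ strip 3, ∀ y ∈ strip 3, ∃ U W : Set (V 4), IsOpen U ∧ IsOpen W ∧
      x ∈ U ∧ y ∈ W ∧ ∀ γ ∈ M1.Γ, γ x ≠ y → Disjoint (γ '' U) W) ∧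
    ∃ K : Set (V 4), IsCompact K ∧ ∀ x ∈ strip 3, ∃ γ ∈ M1.Γ, γ x ∈ K

/-- ST-Pro2 -/
def Pro2 : Prop :=
  Deck → (∀ γ ∈ M2.Γ, ∀ x ∈ strip 3, γ x = x → γ = 1) ∧
    (∀ x ∈ strip 3, ∀ y ∈ strip 3, ∃ U W : Set (V 4), IsOpen U ∧ IsOpen W ∧
      x ∈ U ∧ y ∈ W ∧ ∀ γ ∈ M2.Γ, γ x ≠ y → Disjoint (γ '' U) W) ∧
    ∃ K : Set (V 4), IsCompact K ∧ ∀ x ∈ strip 3, ∃ γ ∈ M2.Γ, γ x ∈ K

/-- ST-LapF -/
def LapF : Prop :=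
  (∀ u : V 4 → ℝ, ContDiff ℝ ∞ u → ∀ x, lap gex u x = (q (x 0))⁻¹ *
    (pd 0 (pd 0 u) x + ((q (x 0))⁻¹) ^ 2 * pd 1 (pd 1 u) x +
      q (x 0) ^ 2 * (pd 2 (pd 2 u) x + pd 3 (pd 3 u) x))) ∧
  ∀ (u : V 4 → ℝ) (x : V 4), |x 0| = 1 → normalD gex u x = x 0 * pd 0 u x

/-- ST-Red1 -/
def Red1 : Prop :=
  Deck → LapF → (∀ σ u, SteklovFun M1 σ u ↔ Sol 0 σ u ∧ Inv i1 u) ∧
    ∀ lam u, NeumannFun M1 lam u ↔ Sol lam 0 u ∧ Inv i1 u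

/-- ST-Red2 -/
def Red2 : Prop :=
  Deck → LapF → (∀ σ u, SteklovFun M2 σ u ↔ Sol 0 σ u ∧ Inv i2 u) ∧
    ∀ lam u, NeumannFun M2 lam u ↔ Sol lam 0 u ∧ Inv i2 u

/-! ### Steklov spectra -/

/-- ST-Abs: the algebraic core -/
def Abs : Prop :=
  ∀ (E : Type) [AddCommGroup E] [Module ℝ E] (D : Fin 3 → E →ₗ[ℝ] E) (I1 I2 : E →ₗ[ℝ] E),
    (∀ i j v, D i (D j v) = D j (D i v)) → (∀ i v, D i (D i v) = 0 → D i v = 0) →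
    (∀ v, I1 (I1 v) = v) → (∀ v, I2 (I2 v) = v) →
    (∀ v, I1 (D 0 v) = -D 0 (I1 v)) → (∀ v, I1 (D 1 v) = D 1 (I1 v)) →
    (∀ v, I1 (D 2 v) = -D 2 (I1 v)) →
    (∀ v, I2 (D 0 v) = D 0 (I2 v)) → (∀ v, I2 (D 1 v) = -D 1 (I2 v)) →
    (∀ v, I2 (D 2 v) = -D 2 (I2 v)) →
    ∀ J : (LinearMap.ker (D 0) ⊓ LinearMap.ker (D 2) : Submodule ℝ E) ≃ₗ[ℝ]
        (LinearMap.ker (D 1) ⊓ LinearMap.ker (D 2) : Submodule ℝ E),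
    (∀ v : (LinearMap.ker (D 0) ⊓ LinearMap.ker (D 2) : Submodule ℝ E),
      D 1 (v : E) = 0 ↔ D 0 (J v : E) = 0) →
    (∀ v w : (LinearMap.ker (D 0) ⊓ LinearMap.ker (D 2) : Submodule ℝ E),
      (w : E) = I1 v → (J w : E) = I2 (J v)) →
    (∀ v w : (LinearMap.ker (D 0) ⊓ LinearMap.ker (D 2) : Submodule ℝ E),
      (w : E) = I2 v → (J w : E) = I1 (J v)) →
    Module.rank ℝ (LinearMap.eqLocus I1 LinearMap.id) =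
      Module.rank ℝ (LinearMap.eqLocus I2 LinearMap.id)

/-- ST-CommD -/
def CommD : Prop :=
  ∀ u : V 4 → ℝ, ContDiff ℝ ∞ u → (∀ i, ContDiff ℝ ∞ (pd i u)) ∧
    ∀ i j, pd i (pd j u) = pd j (pd i u)

/-- ST-OpD -/
def OpD : Prop :=
  CommD → (∀ lam sig u, Sol lam sig u → ∀ i : Fin 3, Sol lam sig (pd i.succ u)) ∧
    ∀ u u' : V 4 → ℝ, ContDiff ℝ ∞ u → ContDiff ℝ ∞ u' → (∀ x ∈ strip 3, u x = u' x) →
      ∀ i : Fin 3, ∀ x ∈ strip 3, pd i.succ u x = pd i.succ u' x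

/-- ST-OpI -/
def OpI : Prop :=
  (∀ lam sig u, Sol lam sig u → Sol lam sig (u ∘ i1) ∧ Sol lam sig (u ∘ i2)) ∧
  ∀ u : V 4 → ℝ, ContDiff ℝ ∞ u →
    (pd 1 (u ∘ i1) = -(pd 1 u ∘ i1)) ∧ (pd 2 (u ∘ i1) = pd 2 u ∘ i1) ∧
    (pd 3 (u ∘ i1) = -(pd 3 u ∘ i1)) ∧
    (pd 1 (u ∘ i2) = pd 1 u ∘ i2) ∧ (pd 2 (u ∘ i2) = -(pd 2 u ∘ i2)) ∧
    (pd 3 (u ∘ i2) = -(pd 3 u ∘ i2))

/-- reflection and exchange of two coordinates -/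
def jj (x : V 4) : V 4 := ![-x 0, x 2, x 1, x 3]

/-- ST-OpJ -/
def OpJ : Prop :=
  (∀ sig u, Sol 0 sig u → ((∀ x ∈ strip 3, pd 1 u x = 0 ∧ pd 3 u x = 0) ∨
      (∀ x ∈ strip 3, pd 2 u x = 0 ∧ pd 3 u x = 0)) → Sol 0 sig (u ∘ jj)) ∧
  ∀ u : V 4 → ℝ, ContDiff ℝ ∞ u →
    (pd 1 (u ∘ jj) = pd 2 u ∘ jj) ∧ (pd 2 (u ∘ jj) = pd 1 u ∘ jj) ∧
    (pd 3 (u ∘ jj) = pd 3 u ∘ jj)

/-- ST-PerD -/
def PerD : Prop :=
  CommD → ∀ lam sig u, Sol lam sig u → ∀ i : Fin 3,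
    (∀ x ∈ strip 3, pd i.succ (pd i.succ u) x = 0) → ∀ x ∈ strip 3, pd i.succ u x = 0

/-- the space of solutions, as functions on the strip (ST-SolE shows that the span is the set) -/
def E (lam sig : ℝ) : Submodule ℝ (strip 3 → ℝ) :=
  Submodule.span ℝ {v | ∃ u, Sol lam sig u ∧ ∀ x : strip 3, v x = u x}

/-- ST-SolE -/
def SolE : Prop :=
  (∀ lam sig (v : strip 3 → ℝ), v ∈ E lam sig ↔ ∃ u, Sol lam sig u ∧ ∀ x : strip 3, v x = u x) ∧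
  (∀ lam sig u u', Sol lam sig u → Sol lam sig u' → Sol lam sig (u + u')) ∧
  ∀ lam sig (c : ℝ) u, Sol lam sig u → Sol lam sig (c • u)

/-- ST-LOp: linear operators on the space of solutions -/
def LOp : Prop :=
  SolE → ∀ (lam sig : ℝ) (T : (V 4 → ℝ) → (V 4 → ℝ)),
    (∀ u, Sol lam sig u → Sol lam sig (T u)) →
    (∀ u u', Sol lam sig u → Sol lam sig u' → (∀ x ∈ strip 3, u x = u' x) →
      ∀ x ∈ strip 3, T u x = T u' x) →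
    (∀ u u', Sol lam sig u → Sol lam sig u' → ∀ x ∈ strip 3, T (u + u') x = T u x + T u' x) →
    (∀ (c : ℝ) u, Sol lam sig u → ∀ x ∈ strip 3, T (c • u) x = c * T u x) →
    ∃ L : E lam sig →ₗ[ℝ] E lam sig, ∀ (v : E lam sig) u, Sol lam sig u →
      (∀ x : strip 3, (v : strip 3 → ℝ) x = u x) → ∀ x : strip 3, (L v : strip 3 → ℝ) x = T u x

/-- the eigenfunctions which are invariant under `f`, as functions on the strip -/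
def F (lam sig : ℝ) (f : V 4 → V 4) : Submodule ℝ (strip 3 → ℝ) :=
  Submodule.span ℝ {v | ∃ u, (Sol lam sig u ∧ Inv f u) ∧ ∀ x : strip 3, v x = u x}

/-- ST-SteE -/
def SteE : Prop :=
  Abs → CommD → OpD → OpI → OpJ → PerD → SolE → LOp →
    ∀ sig, Module.rank ℝ (F 0 sig i1) = Module.rank ℝ (F 0 sig i2)

/-! ### Neumann spectra -/

/-- ST-Ode: solutions of the linear equation with parameter -/
def Ode : Prop :=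
  ∃ w : ℝ → ℝ → ℝ, (∀ l, ContDiff ℝ ∞ (w l)) ∧ (∀ l, w l (-1) = 1) ∧
    (∀ l, deriv (w l) (-1) = 0) ∧
    (∀ l t, deriv (deriv (w l)) t = (((q t)⁻¹) ^ 2 - l * q t) * w l t) ∧
    Continuous (fun p : ℝ × ℝ => w p.1 p.2) ∧ Continuous (fun p : ℝ × ℝ => deriv (w p.1) p.2)

/-- ST-Uni: uniqueness for the linear equation -/
def Uni : Prop :=
  ∀ (f w : ℝ → ℝ) (s : ℝ), Continuous f → ContDiff ℝ 2 w → s ∈ Set.Icc (-1 : ℝ) 1 →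
    (∀ t ∈ Set.Icc (-1 : ℝ) 1, deriv (deriv w) t = f t * w t) → w s = 0 → deriv w s = 0 →
    ∀ t ∈ Set.Icc (-1 : ℝ) 1, w t = 0

/-- ST-Pic: Picone's inequality -/
def Pic : Prop :=
  ∀ f w τ : ℝ → ℝ, Continuous f → ContDiff ℝ 2 w → ContDiff ℝ 1 τ →
    (∀ t ∈ Set.Icc (-1 : ℝ) 1, 0 < w t) →
    (∀ t ∈ Set.Icc (-1 : ℝ) 1, deriv (deriv w) t = f t * w t) →
    deriv w (-1) = 0 → 0 ≤ deriv w 1 →
    0 ≤ ∫ t in (-1 : ℝ)..1, ((deriv τ t) ^ 2 + f t * (τ t) ^ 2)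

/-- ST-Tri: a trial function -/
def Tri : Prop :=
  ∃ τ : ℝ → ℝ, ContDiff ℝ 1 τ ∧
    ∫ t in (-1 : ℝ)..1, ((deriv τ t) ^ 2 + (((q t)⁻¹) ^ 2 - 1 / 2 * q t) * (τ t) ^ 2) < 0

/-- the ground state -/
def IsGround (lam : ℝ) (ψ : ℝ → ℝ) : Prop :=
  ContDiff ℝ ∞ ψ ∧ (∀ t ∈ Set.Icc (-1 : ℝ) 1, 0 < ψ t) ∧
    (∀ t ∈ Set.Icc (-1 : ℝ) 1, deriv (deriv ψ) t = (((q t)⁻¹) ^ 2 - lam * q t) * ψ t) ∧
    deriv ψ (-1) = 0 ∧ deriv ψ 1 = 0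

/-- ST-Gst: existence of the ground state -/
def Gst : Prop :=
  Ode → Uni → Pic → Tri → ∃ lam ψ, 0 < lam ∧ lam < 1 / 2 ∧ IsGround lam ψ

/-- ST-InA -/
def InA : Prop :=
  ∀ (lam : ℝ) (w : ℝ → ℝ), 0 ≤ lam → lam ≤ 1 / 2 → ContDiff ℝ 1 w →
    1 / 8 * ∫ t in (-1 : ℝ)..1, (w t) ^ 2 ≤
      ∫ t in (-1 : ℝ)..1, ((deriv w t) ^ 2 + (q t ^ 2 - lam * q t) * (w t) ^ 2)

/-- ST-Wir: Wirtinger's inequality -/
def Wir : Prop :=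
  ∀ (L : ℝ) (f : ℝ → ℝ), 0 < L → ContDiff ℝ 1 f → f L = f 0 → ∫ s in (0 : ℝ)..L, f s = 0 →
    (2 * Real.pi / L) ^ 2 * ∫ s in (0 : ℝ)..L, (f s) ^ 2 ≤ ∫ s in (0 : ℝ)..L, (deriv f s) ^ 2

/-- integral over the box -/
def box (G : V 4 → ℝ) : ℝ :=
  ∫ t in (-1 : ℝ)..1, ∫ a in (0 : ℝ)..(2 * Real.pi), ∫ b in (0 : ℝ)..(2 * Real.pi),
    ∫ c in (0 : ℝ)..(2 * Real.pi), G ![t, a, b, c]

/-- ST-Ene: the energy identity -/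
def Ene : Prop :=
  ∀ lam u, Sol lam 0 u → box (fun x => (pd 0 u x) ^ 2 + ((q (x 0))⁻¹) ^ 2 * (pd 1 u x) ^ 2 +
    q (x 0) ^ 2 * ((pd 2 u x) ^ 2 + (pd 3 u x) ^ 2) - lam * q (x 0) * (u x) ^ 2) = 0

/-- ST-NB -/
def NB : Prop :=
  CommD → OpD → Ene → Wir → InA → ∀ lam u, 0 ≤ lam → lam ≤ 1 / 2 → Sol lam 0 u →
    ∀ x ∈ strip 3, pd 2 u x = 0 ∧ pd 3 u x = 0

/-- ST-NC -/
def NC : Prop :=
  CommD → OpD → Ene → Wir → Pic → ∀ lam ψ u, IsGround lam ψ → Sol lam 0 u → Inv i2 u →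
    (∀ x ∈ strip 3, pd 2 u x = 0 ∧ pd 3 u x = 0) → ∀ x ∈ strip 3, pd 1 u x = 0

/-- ST-NR -/
def NR : Prop :=
  Uni → ∀ lam ψ, 0 < lam → IsGround lam ψ →
    (∀ u, Sol lam 0 u → Inv i2 u → ∀ x ∈ strip 3, pd 1 u x = 0 ∧ pd 2 u x = 0 ∧ pd 3 u x = 0) →
    Module.rank ℝ (F lam 0 i1) ≠ Module.rank ℝ (F lam 0 i2)

theorem goal_of_props (hRMet : RMet) (hDeck : Deck) (hIso1 : Iso1) (hIso2 : Iso2) (hPro1 : Pro1)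
    (hPro2 : Pro2) (hLapF : LapF) (hRed1 : Red1) (hRed2 : Red2) (hAbs : Abs) (hCommD : CommD)
    (hOpD : OpD) (hOpI : OpI) (hOpJ : OpJ) (hPerD : PerD) (hSolE : SolE) (hLOp : LOp)
    (hSteE : SteE) (hOde : Ode) (hUni : Uni) (hPic : Pic) (hTri : Tri) (hGst : Gst) (hInA : InA)
    (hWir : Wir) (hEne : Ene) (hNB : NB) (hNC : NC) (hNR : NR) : Goal := by
  have r1 := hRed1 hDeck hLapF
  have r2 := hRed2 hDeck hLapF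
  have i1' := hIso1 hDeck
  have i2' := hIso2 hDeck
  have p1 := hPro1 hDeck
  have p2 := hPro2 hDeck
  refine ⟨M1, M2, ⟨hRMet.1, hRMet.2, fun γ h => (i1' γ h).1, fun γ h => (i1' γ h).2.1,
    fun γ h => (i1' γ h).2.2, p1.1, p1.2.1, p1.2.2⟩, ⟨hRMet.1, hRMet.2, fun γ h => (i2' γ h).1,
    fun γ h => (i2' γ h).2.1, fun γ h => (i2' γ h).2.2, p2.1, p2.2.1, p2.2.2⟩, ?_, ?_⟩
  · intro σ
    have h := hSteE hAbs hCommD hOpD hOpI hOpJ hPerD hSolE hLOp σ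
    unfold F at h
    have e1 : SteklovFun M1 σ = fun u => Sol 0 σ u ∧ Inv i1 u := by
      ext u; exact r1.1 σ u
    have e2 : SteklovFun M2 σ = fun u => Sol 0 σ u ∧ Inv i2 u := by
      ext u; exact r2.1 σ u
    unfold mult
    rw [e1, e2]
    exact h
  · obtain ⟨lam, ψ, h0, h1, hψ⟩ := hGst hOde hUni hPic hTri
    intro hiso
    have h := hiso lam
    have e1 : NeumannFun M1 lam = fun u => Sol lam 0 u ∧ Inv i1 u := by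
      ext u; exact r1.2 lam u
    have e2 : NeumannFun M2 lam = fun u => Sol lam 0 u ∧ Inv i2 u := by
      ext u; exact r2.2 lam u
    unfold mult at h
    rw [e1, e2] at h
    refine hNR hUni lam ψ h0 hψ ?_ h
    intro u hu hi x hx
    have hb := hNB hCommD hOpD hEne hWir hInA lam u h0.le h1.le hu
    exact ⟨hNC hCommD hOpD hEne hWir hPic lam ψ u hψ hu hi hb x hx, hb x hx⟩

end

end Pool.Agent.W8.ST
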