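import Mathlib

/-!
Project ST (helper8, MP_7e83e7_gt): Steklov isospectral Riemannian manifolds which are not
Neumann isospectral.  Definitions.

A compact connected Riemannian manifold with boundary is given as the quotient of the strip
`-1 ≤ x 0 ≤ 1` in `ℝ^(n+1)`, with a Riemannian metric `g`, by a group `Γ` of isometries which acts
freely, properly and cocompactly.
-/

open scoped ContDiff

namespace Pool.Agent.W8.ST

noncomputable section

abbrev V (n : ℕ) : Type := Fin n → ℝ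

/-- the closed strip -/
def strip (n : ℕ) : Set (V (n + 1)) := {x | |x 0| ≤ 1}

/-- partial derivative -/
def pd {n : ℕ} (i : Fin n) (u : V n → ℝ) (x : V n) : ℝ := fderiv ℝ u x (Pi.single i 1)

/-- components of the gradient with respect to the metric `g` -/
def grad {n : ℕ} (g : V n → Matrix (Fin n) (Fin n) ℝ) (u : V n → ℝ) (x : V n) (i : Fin n) : ℝ :=
  ∑ j, (g x)⁻¹ i j * pd j u x

/-- the Laplace-Beltrami operator `div grad` of the metric `g` -/
def lap {n : ℕ} (g : V n → Matrix (Fin n) (Fin n) ℝ) (u : V n → ℝ) (x : V n) : ℝ :=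
  (√(g x).det)⁻¹ * ∑ i, pd i (fun y => √(g y).det * grad g u y i) x

/-- derivative in the direction of the outward unit normal, at points with `x 0 = 1` or
`x 0 = -1` -/
def normalD {n : ℕ} (g : V (n + 1) → Matrix (Fin (n + 1)) (Fin (n + 1)) ℝ)
    (u : V (n + 1) → ℝ) (x : V (n + 1)) : ℝ :=
  x 0 * grad g u x 0 / √((g x)⁻¹ 0 0)

/-- a metric and a group of transformations -/
structure Data (n : ℕ) where
  g : V (n + 1) → Matrix (Fin (n + 1)) (Fin (n + 1)) ℝ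
  Γ : Subgroup (Equiv.Perm (V (n + 1)))

/-- `strip / Γ` with the metric `g` is a compact connected Riemannian manifold of dimension
`n + 1` with smooth nonempty boundary -/
structure IsRiem {n : ℕ} (M : Data n) : Prop where
  smooth : ∀ i j, ContDiff ℝ ∞ (fun x => M.g x i j)
  posDef : ∀ x, (M.g x).PosDef
  deckSmooth : ∀ γ ∈ M.Γ, ContDiff ℝ ∞ γ
  deckStrip : ∀ γ ∈ M.Γ, ∀ x ∈ strip n, γ x ∈ strip n
  isometry : ∀ γ ∈ M.Γ, ∀ x i j,
    M.g x i j = ∑ k, ∑ l, pd i (fun y => γ y k) x * M.g (γ x) k l * pd j (fun y => γ y l) x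
  free : ∀ γ ∈ M.Γ, ∀ x ∈ strip n, γ x = x → γ = 1
  proper : ∀ x ∈ strip n, ∀ y ∈ strip n, ∃ U W : Set (V (n + 1)), IsOpen U ∧ IsOpen W ∧
    x ∈ U ∧ y ∈ W ∧ ∀ γ ∈ M.Γ, γ x ≠ y → Disjoint (γ '' U) W
  cocompact : ∃ K : Set (V (n + 1)), IsCompact K ∧ ∀ x ∈ strip n, ∃ γ ∈ M.Γ, γ x ∈ K

/-- smooth functions on the manifold: functions smooth up to the boundary and invariant
under `Γ` -/
def SmoothFun {n : ℕ} (M : Data n) (u : V (n + 1) → ℝ) : Prop :=
  ContDiff ℝ ∞ u ∧ ∀ γ ∈ M.Γ, ∀ x ∈ strip n, u (γ x) = u x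

/-- `Δ u = 0`, `∂_ν u = σ u` on the boundary -/
def SteklovFun {n : ℕ} (M : Data n) (σ : ℝ) (u : V (n + 1) → ℝ) : Prop :=
  SmoothFun M u ∧ (∀ x ∈ strip n, lap M.g u x = 0) ∧
    ∀ x : V (n + 1), |x 0| = 1 → normalD M.g u x = σ * u x

/-- `-Δ u = lam u`, `∂_ν u = 0` on the boundary -/
def NeumannFun {n : ℕ} (M : Data n) (lam : ℝ) (u : V (n + 1) → ℝ) : Prop :=
  SmoothFun M u ∧ (∀ x ∈ strip n, -lap M.g u x = lam * u x) ∧
    ∀ x : V (n + 1), |x 0| = 1 → normalD M.g u x = 0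

/-- dimension of the space of functions on the strip spanned by the functions with property `P` -/
def mult {n : ℕ} (P : (V (n + 1) → ℝ) → Prop) : Cardinal :=
  Module.rank ℝ (Submodule.span ℝ {v : strip n → ℝ | ∃ u, P u ∧ ∀ x : strip n, v x = u x})

/-- equal Steklov spectra, with multiplicities -/
def SteklovIsospectral {n : ℕ} (M M' : Data n) : Prop :=
  ∀ σ : ℝ, mult (SteklovFun M σ) = mult (SteklovFun M' σ)

/-- equal Neumann spectra, with multiplicities -/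
def NeumannIsospectral {n : ℕ} (M M' : Data n) : Prop :=
  ∀ lam : ℝ, mult (NeumannFun M lam) = mult (NeumannFun M' lam)

/-- the final statement -/
def Goal : Prop :=
  ∃ M M' : Data 3, IsRiem M ∧ IsRiem M' ∧ SteklovIsospectral M M' ∧ ¬ NeumannIsospectral M M'

/-! ### the example -/

def q (t : ℝ) : ℝ := Real.exp (20 * t * (1 - t ^ 2))

def gex (x : V 4) : Matrix (Fin 4) (Fin 4) ℝ :=
  Matrix.diagonal ![q (x 0), q (x 0) ^ 3, (q (x 0))⁻¹, (q (x 0))⁻¹]

def gam1 (m n k : ℤ) (x : V 4) : V 4 :=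
  ![x 0, (-1 : ℝ) ^ n * x 1 + 2 * Real.pi * m, x 2 + Real.pi * n,
    (-1 : ℝ) ^ n * x 3 + 2 * Real.pi * k]

def gam2 (m n k : ℤ) (x : V 4) : V 4 :=
  ![x 0, x 1 + Real.pi * n, (-1 : ℝ) ^ n * x 2 + 2 * Real.pi * m,
    (-1 : ℝ) ^ n * x 3 + 2 * Real.pi * k]

def M1 : Data 3 where
  g := gex
  Γ := Subgroup.closure {e : Equiv.Perm (V 4) | ∃ m n k : ℤ, ∀ x, e x = gam1 m n k x}

def M2 : Data 3 where
  g := gex
  Γ := Subgroup.closure {e : Equiv.Perm (V 4) | ∃ m n k : ℤ, ∀ x, e x = gam2 m n k x}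

/-- the two involutions (modulo translations) -/
def i1 (x : V 4) : V 4 := ![x 0, -x 1, x 2 + Real.pi, -x 3]
def i2 (x : V 4) : V 4 := ![x 0, x 1 + Real.pi, -x 2, -x 3]

/-- periodic solutions of the Laplace equation with parameter -/
def Sol (lam sig : ℝ) (u : V 4 → ℝ) : Prop :=
  ContDiff ℝ ∞ u ∧
  (∀ x ∈ strip 3, ∀ i : Fin 3, u (x + Pi.single i.succ (2 * Real.pi)) = u x) ∧
  (∀ x ∈ strip 3, pd 0 (pd 0 u) x + ((q (x 0))⁻¹) ^ 2 * pd 1 (pd 1 u) x +
    q (x 0) ^ 2 * (pd 2 (pd 2 u) x + pd 3 (pd 3 u) x) + lam * q (x 0) * u x = 0) ∧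
  ∀ x : V 4, |x 0| = 1 → x 0 * pd 0 u x = sig * u x

/-- invariance under a map -/
def Inv (f : V 4 → V 4) (u : V 4 → ℝ) : Prop := ∀ x ∈ strip 3, u (f x) = u x

end

end Pool.Agent.W8.ST
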